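import Pool.Agent.Helper36.HS.St

/-! # HS module CR: the covering relation for ordinals of cofinality `ν` -/

namespace Pool.Agent.Helper22.HS.CR

open Ordinal Cardinal ZFSet Order Pool.Agent.Helper73.HODC Pool.Agent.Helper73.HE
  Pool.Agent.Helper73.HM Pool.Agent.Helper73.HU Pool.Agent.Helper73.HV Pool.Agent.Helper36.HS

theorem cr (h : StRX) : StCR := by
  intro c ν δ A ρ cf hcof hδ hcf hν hno hA hAlt hat
  have key : ∀ a ∈ A, a < δ ∧ IsSuccLimit a ∧ ρ a < c.ord := by
    intro a ha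
    obtain ⟨h1, h2⟩ := hAlt a ha
    have hl : IsSuccLimit a := by
      refine one_lt_cof_iff.mp ?_
      rw [h2]
      exact one_lt_aleph0.trans_le hν.aleph0_le
    refine ⟨h1, hl, ?_⟩
    by_contra h3
    exact hno (ρ a) (not_lt.1 h3) ((hcf.le a h1 hl).trans h1.le) (hcf.reg a h1 hl)
      ((hcf.cof a h1 hl).trans h2)
  let C : Ordinal.{0} → Ordinal.{0} → Prop := fun a b => ∃ x, x < ρ a ∧ cf a x = b
  have hC : DP (fun v => C (v 0).rank (v 1).rank) := by
    refine DP.exO (Q := fun x v => x < ρ (v 0).rank ∧ cf (v 0).rank x = (v 1).rank) ?_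
    refine DP.and ?_ (hcf.dpc.rename (fun n => if n = 0 then 1 else if n = 1 then 0 else 2))
    have h1 : DP (fun v => ∃ z : Ordinal.{0}, ρ (v 1).rank = z ∧ (v 0).rank < z) := by
      refine DP.exO (Q := fun z v => ρ (v 1).rank = z ∧ (v 0).rank < z) ?_
      exact (hcf.dpr.rename (fun n => if n = 0 then 2 else 0)).and (DP.rank_lt 1 0)
    refine h1.congr fun v => ?_
    constructor
    · intro h2
      exact ⟨_, rfl, h2⟩
    · rintro ⟨z, rfl, h2⟩
      exact h2
  refine h c.ord δ A C hcof hδ hA (fun a ha => (hAlt a ha).1) hat hC ?_ ?_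
  · intro a ha β hβ
    obtain ⟨h1, h2, h3⟩ := key a ha
    obtain ⟨x, hx, hx2⟩ := hcf.unb a h1 h2 β hβ
    exact ⟨cf a x, ⟨x, hx, rfl⟩, hx2.le, hcf.lt a h1 h2 x hx⟩
  · intro a ha
    obtain ⟨h1, h2, h3⟩ := key a ha
    refine ⟨ρ a, h3, fun b => sInf {x | x < ρ a ∧ cf a x = b}, ?_, ?_⟩
    · rintro b ⟨x, hx⟩
      exact (csInf_mem (s := {x | x < ρ a ∧ cf a x = b}) ⟨x, hx⟩).1
    · intro b hb b' hb' hlt
      have e1 := csInf_mem (s := {x | x < ρ a ∧ cf a x = b}) hb
      have e2 := csInf_mem (s := {x | x < ρ a ∧ cf a x = b'}) hb'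
      by_contra h5
      rcases (not_lt.1 h5).lt_or_eq with h6 | h6
      · have h7 := hcf.mono a h1 h2 _ _ h6 e1.1
        rw [e1.2, e2.2] at h7
        exact absurd hlt h7.not_gt
      · have h7 : b' = b := by
          rw [← e1.2, ← e2.2]
          exact congrArg (cf a) h6
        exact hlt.ne h7.symm

end Pool.Agent.Helper22.HS.CR
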